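import Pool.Agent.Helper91.SCOneTwo

set_option autoImplicit false

namespace Pool.Agent.Results.MP_ac7af6_nt.AllFour

open Finset Pool.Agent.Helper91.SC

/-- `x` is `p`-integral: its reduced denominator is coprime to `p`. -/
def PIntegral (p : ℕ) (x : ℚ) : Prop := Nat.Coprime x.den p

/-- `a` is congruent to `b` modulo `p ^ m`, for `p`-integral rationals `a` and `b`. -/
def Congruent (p m : ℕ) (a b : ℚ) : Prop :=
  PIntegral p a ∧ PIntegral p b ∧ PIntegral p ((a - b) / (p : ℚ) ^ m)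

lemma pint_of_mem {p : ℕ} [hp : Fact p.Prime] {x : ℚ} (h : x ∈ OO p) : PIntegral p x := by
  unfold PIntegral
  rw [Nat.coprime_comm]
  exact (Nat.Prime.coprime_iff_not_dvd hp.out).mpr h

lemma congr_of_D {p : ℕ} [hp : Fact p.Prime] {m : ℕ} {a b : ℚ} (ha : a ∈ OO p) (hb : b ∈ OO p)
    (h : DD' p m (a - b)) : Congruent p m a b := by
  refine ⟨pint_of_mem ha, pint_of_mem hb, ?_⟩
  obtain ⟨c, hc, e⟩ := h
  have : (a - b) / (p : ℚ) ^ m = c := by
    rw [e]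
    have h0 : (p : ℚ) ^ m ≠ 0 := pow_ne_zero _ pne
    field_simp
  rw [this]
  exact pint_of_mem hc

/-- All four supercongruences hold for every prime `p > 5`. -/
theorem result (p : ℕ) (hp : p.Prime) (h5 : 5 < p) :
    Congruent p 5
      (∑ j ∈ Finset.range ((p - 3) / 2 + 1), (Nat.choose (2 * j) j : ℚ) / (16 ^ j * (2 * (j : ℚ) + 1)))
      ((-1) ^ ((p - 1) / 2) * (1 / 12 * harmonic (p - 1) + 3 / 160 * (p : ℚ) ^ 4 * bernoulli (p - 5)))
    ∧ Congruent p 3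
      (∑ j ∈ Finset.range ((p - 3) / 2 + 1), (Nat.choose (2 * j) j : ℚ) / (16 ^ j * (2 * (j : ℚ) + 1) ^ 3))
      ((-1) ^ ((p - 1) / 2) * (1 / (4 * (p : ℚ) ^ 2) * harmonic (p - 1) + 1 / 36 * (p : ℚ) ^ 2 * bernoulli (p - 5)))
    ∧ Congruent p 3
      (∑ j ∈ Finset.range ((p - 3) / 2 + 1), (Nat.choose (2 * j) j : ℚ) / ((-16) ^ j * (2 * (j : ℚ) + 1) ^ 2))
      (1 / (5 * (p : ℚ)) * harmonic (p - 1))
    ∧ Congruent p 2
      (∑ j ∈ Finset.Icc ((p + 1) / 2) (p - 1), (Nat.choose (2 * j) j : ℚ) / ((-16) ^ j * (2 * (j : ℚ) + 1) ^ 2))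
      (-(1 / 4 * (p : ℚ) * bernoulli (p - 3))) := by
  have : Fact p.Prime := ⟨hp⟩
  obtain ⟨hp2, hp3⟩ := p_mod (p := p) h5
  obtain ⟨n, hpn⟩ : ∃ n, p = 2 * n + 1 := ⟨p / 2, by omega⟩
  have hr : (p - 3) / 2 + 1 = n := by omega
  have he : (p - 1) / 2 = n := by omega
  have hH : harmonic (p - 1) = hs n 1 := by
    have : p - 1 = 2 * n := by omega
    rw [this]
    unfold harmonic hs yy
    apply sum_congr rfl
    intro k _
    push_cast
    rw [pow_one]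
  have hcb : ∀ j, (Nat.choose (2 * j) j : ℚ) = (Nat.centralBinom j : ℚ) := by
    intro j; rw [Nat.centralBinom_eq_two_mul_choose]
  rw [hr, he, hH]
  have hn : 0 < n := by omega
  have e1 : ∑ j ∈ Finset.range n, (Nat.choose (2 * j) j : ℚ) / (16 ^ j * (2 * (j : ℚ) + 1))
      = ∑ j ∈ Finset.range n, uu ℚ j * xx ℚ j := by
    apply sum_congr rfl
    intro j _
    rw [hcb]
    unfold uu xx
    rw [div_eq_mul_inv, mul_inv]; ring
  have e2 : ∑ j ∈ Finset.range n, (Nat.choose (2 * j) j : ℚ) / (16 ^ j * (2 * (j : ℚ) + 1) ^ 3)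
      = ∑ j ∈ Finset.range n, uu ℚ j * xx ℚ j * cc ℚ j := by
    apply sum_congr rfl
    intro j _
    rw [hcb]
    unfold uu cc xx
    rw [div_eq_mul_inv, mul_inv, ← inv_pow (2 * (j : ℚ) + 1)]; ring
  have e3 : ∑ j ∈ Finset.range n, (Nat.choose (2 * j) j : ℚ) / ((-16) ^ j * (2 * (j : ℚ) + 1) ^ 2)
      = ∑ j ∈ Finset.range n, (-1) ^ j * uu ℚ j * cc ℚ j := by
    apply sum_congr rfl
    intro j _
    rw [hcb]
    unfold uu cc xx
    have hs2 : ((-1 : ℚ) ^ j)⁻¹ = (-1) ^ j := by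
      rw [inv_eq_of_mul_eq_one_left]
      rw [← mul_pow]; simp
    have : (-16 : ℚ) ^ j = (-1) ^ j * 16 ^ j := by rw [← mul_pow]; norm_num
    rw [this, div_eq_mul_inv, mul_inv, mul_inv, hs2, ← inv_pow (2 * (j : ℚ) + 1)]; ring
  have e4 : ∑ j ∈ Finset.Icc ((p + 1) / 2) (p - 1), (Nat.choose (2 * j) j : ℚ) / ((-16) ^ j * (2 * (j : ℚ) + 1) ^ 2)
      = ∑ i ∈ Finset.range n, f4 (n + 1 + i) := by
    have hI : Finset.Icc ((p + 1) / 2) (p - 1) = Finset.Ico (n + 1) (2 * n + 1) := by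
      ext x; simp only [mem_Icc, mem_Ico]; omega
    rw [hI, sum_Ico_eq_sum_range]
    have : 2 * n + 1 - (n + 1) = n := by omega
    rw [this]
    apply sum_congr rfl
    intro i _
    rw [hcb]
    unfold f4
    rw [div_eq_mul_inv]
  have m1 : (∑ j ∈ Finset.range n, uu ℚ j * xx ℚ j) ∈ OO p := OO_sum _ _ (fun j hj =>
    mul_mem (uu_mem hpn hn j) (xx_mem hpn j (by simpa using hj)))
  have m2 : (∑ j ∈ Finset.range n, uu ℚ j * xx ℚ j * cc ℚ j) ∈ OO p := OO_sum _ _ (fun j hj =>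
    mul_mem (mul_mem (uu_mem hpn hn j) (xx_mem hpn j (by simpa using hj))) (cc_mem hpn j (by simpa using hj)))
  have m3 : (∑ j ∈ Finset.range n, (-1) ^ j * uu ℚ j * cc ℚ j) ∈ OO p := OO_sum _ _ (fun j hj =>
    mul_mem (mul_mem (sgn_mem j) (uu_mem hpn hn j)) (cc_mem hpn j (by simpa using hj)))
  have m4 : (-(1 / 4 * (p : ℚ) * bernoulli (p - 3))) ∈ OO p :=
    neg_mem (mul_mem (mul_mem (cst h5 _ 1 2 0 0 (by norm_num)) OO_p) (bern_mem _ (by omega)))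
  have d1 := one hpn h5
  have d2 := two hpn h5
  have d3 := three hpn h5
  have d4 := four hpn h5
  have q2 : (-1 : ℚ) ^ n * (1 / (4 * (p : ℚ) ^ 2) * hs n 1 + 1 / 36 * (p : ℚ) ^ 2 * bernoulli (p - 5))
      = (-1) ^ n * (hs n 1 / (4 * p ^ 2) + 1 / 36 * p ^ 2 * bernoulli (p - 5)) := by ring
  have q3 : 1 / (5 * (p : ℚ)) * hs n 1 = hs n 1 / (5 * p) := by ring
  rw [e1, e2, e3, e4, q2, q3]
  have r : ∀ (a b : ℚ) (m : ℕ), a ∈ OO p → DD' p m (a - b) → b ∈ OO p := by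
    intro a b m ha hd
    have : b = a - (a - b) := by ring
    rw [this]
    exact sub_mem ha (D_int hd)
  refine ⟨congr_of_D m1 (r _ _ _ m1 d1) d1, congr_of_D m2 (r _ _ _ m2 d2) d2,
    congr_of_D m3 (r _ _ _ m3 d3) d3, ?_⟩
  have d4' : DD' p 2 (∑ i ∈ Finset.range n, f4 (n + 1 + i) - (-(1 / 4 * (p : ℚ) * bernoulli (p - 3)))) := by
    rw [sub_neg_eq_add]; exact d4
  refine congr_of_D ?_ m4 d4'
  have : ∑ i ∈ Finset.range n, f4 (n + 1 + i)
      = (∑ i ∈ Finset.range n, f4 (n + 1 + i) - (-(1 / 4 * (p : ℚ) * bernoulli (p - 3))))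
        + (-(1 / 4 * (p : ℚ) * bernoulli (p - 3))) := by ring
  rw [this]
  exact add_mem (D_int d4') m4

end Pool.Agent.Results.MP_ac7af6_nt.AllFour
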